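import Pool.Agent.Lib.DU.Iface
import Pool.Agent.Lib.DN.O.All
import Pool.Agent.Lib.DN.E.SpecB

/-!
# Theorem DU: the prime above `3` (`S_O4`) (author helper28)
-/

set_option autoImplicit false

open scoped Pointwise nonZeroDivisors

noncomputable section

namespace Pool.Agent.DM.DU

open Pool.Agent.MuZ Pool.Agent.FW NumberField IsDedekindDomain
open Pool.Agent.DI (io ofC io_inj exists_io io_ofC ofC_io VP MP UP TP ex)
open Pool.Agent.DN

variable {n t : ℕ}

theorem sD_sq [SqN n t] : sD n t * sD n t = -(Dk n t : OO n t) := by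
  have h := Dk_cast (n := n) (t := t)
  apply ext'
  · rw [re_mul, QuadraticAlgebra.re_neg, re_nat, h]
    simp only [sD]
    ring
  · rw [im_mul, QuadraticAlgebra.im_neg, im_nat]
    simp only [sD]
    ring

theorem cj_sD : cjO (sD n t) = -sD n t := by
  apply ext'
  · rw [QuadraticAlgebra.re_neg]
    simp only [cjO, sD]
    ring
  · rw [QuadraticAlgebra.im_neg]
    simp only [cjO, sD]

theorem Nm_sD [SqN n t] : Nm (sD n t) = Dk n t := by
  rw [Dk_cast]
  simp only [Nm, sD]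
  ring

/-- `D = 3 D'`, `D'` prime to `3`. -/
theorem D3 [Ram3 n t] : ∃ D' : ℕ, Dk n t = 3 * D' ∧ D'.Coprime 3 := by
  have h0 : Dk n t % 3 = 0 := Ram3.zero
  obtain ⟨D', hD'⟩ := Nat.dvd_of_mod_eq_zero h0
  refine ⟨D', hD', ?_⟩
  rw [Nat.coprime_comm, Nat.Prime.coprime_iff_not_dvd Nat.prime_three]
  rintro ⟨k, rfl⟩
  have h9 : (9 : ℤ) ∣ 4 * n - (t : ℤ) ^ 2 := by
    refine ⟨k, ?_⟩
    rw [← Dk_cast, hD']
    push_cast
    ring
  have ht := (inferInstance : SqN n t).out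
  rcases ht with ⟨h1, h2, h3⟩ | ⟨h1, h2, h3, h4⟩
  · subst h1
    have h5 : (3 : ℕ) * 3 ∣ 4 * n - 1 := by
      have : ((9 : ℕ) : ℤ) ∣ ((4 * n - 1 : ℕ) : ℤ) := by
        rw [Nat.cast_sub (by omega)]
        push_cast at h9 ⊢
        simpa using h9
      exact_mod_cast this
    have h6 := h3 3 h5
    rw [Nat.isUnit_iff] at h6
    omega
  · subst h1
    have h5 : (3 : ℕ) * 3 ∣ n := by
      have : (9 : ℤ) ∣ (n : ℤ) := by
        push_cast at h9
        omega
      exact_mod_cast this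
    have h6 := h3 3 h5
    rw [Nat.isUnit_iff] at h6
    omega

theorem nt0 [Ram3 n t] : (-(t : ZMod 3)) ^ 2 = (t : ZMod 3) * (-(t : ZMod 3)) - n := by
  have h1 : Dk n t % 3 = 0 := Ram3.zero
  have h2 := Dk_cast (n := n) (t := t)
  have h3 : ((Dk n t : ℕ) : ZMod 3) = 0 := (ZMod.natCast_eq_zero_iff _ _).2 (Nat.dvd_of_mod_eq_zero h1)
  have h4 := congrArg (Int.cast : ℤ → ZMod 3) h2
  push_cast at h4
  rw [h3] at h4
  have e : (4 : ZMod 3) = 1 := rfl
  have e2 : (3 : ZMod 3) = 0 := rfl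
  rw [e, one_mul] at h4
  linear_combination -h4 + (t : ZMod 3) ^ 2 * e2

/-- The residue map modulo `pp`. -/
def ph (n t : ℕ) [Ram3 n t] : OO n t →+* ZMod 3 := evO (-(t : ZMod 3)) nt0

theorem ph_apply [Ram3 n t] (v : OO n t) : ph n t v = ((v.re - t * v.im : ℤ) : ZMod 3) := by
  change (v.re : ZMod 3) + (v.im : ZMod 3) * (-(t : ZMod 3)) = _
  push_cast
  ring

theorem ph_zero [Ram3 n t] (v : OO n t) : ph n t v = 0 ↔ (3 : ℤ) ∣ v.re - t * v.im := by
  rw [ph_apply, ZMod.intCast_zmod_eq_zero_iff_dvd]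
  norm_num

theorem pp_ker [Ram3 n t] : pp n t = RingHom.ker (ph n t) := by
  apply le_antisymm
  · unfold pp
    rw [Ideal.span_le]
    rintro x hx
    rcases hx with rfl | hx
    · rw [SetLike.mem_coe, RingHom.mem_ker]
      rw [map_ofNat]
      rfl
    · rw [Set.mem_singleton_iff] at hx
      subst hx
      rw [SetLike.mem_coe, RingHom.mem_ker, ph_zero]
      exact ⟨-t, by simp only [sD]; ring⟩
  · intro v hv
    rw [RingHom.mem_ker, ph_zero] at hv
    obtain ⟨k, hk⟩ := hv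
    have h3 : (3 : OO n t) ∈ pp n t := Ideal.subset_span (by simp)
    have hs : sD n t ∈ pp n t := Ideal.subset_span (by simp)
    have e : v = 3 * (v - ((2 * k + t * v.im : ℤ) : OO n t)) - ((v.im : ℤ) : OO n t) * sD n t := by
      have e3 : (3 : OO n t) = ((3 : ℕ) : OO n t) := by norm_num
      rw [e3]
      apply ext'
      · rw [QuadraticAlgebra.re_sub, re_mul, re_mul, QuadraticAlgebra.re_sub, QuadraticAlgebra.im_sub, re_nat,
          im_nat, re_int, im_int, re_int, im_int]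
        simp only [sD]
        push_cast
        linear_combination (-2 : ℤ) * hk
      · rw [QuadraticAlgebra.im_sub, im_mul, im_mul, QuadraticAlgebra.re_sub, QuadraticAlgebra.im_sub, re_nat,
          im_nat, re_int, im_int, re_int, im_int]
        simp only [sD]
        push_cast
        ring
    rw [e]
    exact sub_mem (Ideal.mul_mem_right _ _ h3) (Ideal.mul_mem_left _ _ hs)

theorem mem_pp [Ram3 n t] {v : OO n t} : v ∈ pp n t ↔ (3 : ℤ) ∣ v.re - t * v.im := by
  rw [pp_ker, RingHom.mem_ker, ph_zero]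

theorem ph_surj [Ram3 n t] : Function.Surjective (ph n t) := fun x => ⟨(x.val : OO n t), by
  rw [map_natCast, ZMod.natCast_zmod_val]⟩

theorem NI_pp [Ram3 n t] : NI (pp n t) = 3 := by
  unfold NI
  rw [pp_ker, Nat.card_congr (RingHom.quotientKerEquivOfSurjective (ph_surj (n := n) (t := t))).toEquiv,
    Nat.card_eq_fintype_card, ZMod.card]

theorem pp_prime [Ram3 n t] : (pp n t).IsPrime := by
  rw [pp_ker]
  have : Fact (Nat.Prime 3) := ⟨Nat.prime_three⟩
  exact RingHom.ker_isPrime _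

theorem pp_ne [Ram3 n t] : pp n t ≠ ⊥ := by
  intro h
  have h3 : (3 : OO n t) ∈ pp n t := Ideal.subset_span (by simp)
  rw [h, Ideal.mem_bot] at h3
  have h4 := congrArg QuadraticAlgebra.re h3
  have e3 : (3 : OO n t) = ((3 : ℕ) : OO n t) := by norm_num
  rw [e3, re_nat] at h4
  norm_num at h4

/-- `zs` as a ternary value: the residue. -/
theorem zs_ph [Ram3 n t] (v : OO n t) : ((zs v : ℤ) : ZMod 3) = ph n t v ∧
    (zs v = 1 ∨ zs v = -1 ∨ zs v = 0) := by
  rw [ph_apply]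
  unfold zs
  split_ifs with h1 h2
  · refine ⟨?_, Or.inl rfl⟩
    rw [← sub_eq_zero, ← Int.cast_sub, ZMod.intCast_zmod_eq_zero_iff_dvd]
    push_cast
    omega
  · refine ⟨?_, Or.inr (Or.inl rfl)⟩
    rw [← sub_eq_zero, ← Int.cast_sub, ZMod.intCast_zmod_eq_zero_iff_dvd]
    push_cast
    omega
  · refine ⟨?_, Or.inr (Or.inr rfl)⟩
    rw [← sub_eq_zero, ← Int.cast_sub, ZMod.intCast_zmod_eq_zero_iff_dvd]
    push_cast
    omega

private theorem zs_uni {x y : ℤ} (hx : x = 1 ∨ x = -1 ∨ x = 0) (hy : y = 1 ∨ y = -1 ∨ y = 0)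
    (h : (x : ZMod 3) = y) : x = y := by
  rcases hx with rfl | rfl | rfl <;> rcases hy with rfl | rfl | rfl <;> first | rfl | (revert h; decide)

theorem zs_mul [Ram3 n t] (v u : OO n t) : zs (v * u) = zs v * zs u := by
  obtain ⟨h1, h2⟩ := zs_ph v
  obtain ⟨h3, h4⟩ := zs_ph u
  obtain ⟨h5, h6⟩ := zs_ph (v * u)
  refine zs_uni h6 ?_ ?_
  · rcases h2 with h2 | h2 | h2 <;> rcases h4 with h4 | h4 | h4 <;> rw [h2, h4] <;> decide
  · push_cast
    rw [h5, h1, h3, map_mul]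

theorem zs_cong [Ram3 n t] {v u : OO n t} (h : v - u ∈ pp n t) : zs v = zs u := by
  refine zs_uni (zs_ph v).2 (zs_ph u).2 ?_
  rw [(zs_ph v).1, (zs_ph u).1, ← sub_eq_zero, ← map_sub, ← RingHom.mem_ker, ← pp_ker]
  exact h

theorem ph_cj [Ram3 n t] (v : OO n t) : ph n t (cjO v) = ph n t v := by
  rw [← sub_eq_zero, ← map_sub, ph_zero, QuadraticAlgebra.re_sub, QuadraticAlgebra.im_sub]
  exact ⟨t * v.im, by simp only [cjO]; ring⟩

theorem zs_cj [Ram3 n t] (v : OO n t) : zs (cjO v) = zs v :=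
  zs_uni (zs_ph _).2 (zs_ph v).2 (by rw [(zs_ph _).1, (zs_ph v).1, ph_cj])

theorem zs_zero [Ram3 n t] (v : OO n t) : zs v = 0 ↔ v ∈ pp n t := by
  rw [pp_ker, RingHom.mem_ker, ← (zs_ph v).1]
  rcases (zs_ph v).2 with h | h | h <;> rw [h] <;> decide

theorem sub_zs [Ram3 n t] (v : OO n t) : v - (zs v : OO n t) ∈ pp n t := by
  rw [pp_ker, RingHom.mem_ker, map_sub, map_intCast, (zs_ph v).1, sub_self]

theorem Nm_ph [Ram3 n t] (v : OO n t) : ((Nm v : ℤ) : ZMod 3) = ph n t v ^ 2 := by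
  have h : ph n t ((Nm v : ℤ) : OO n t) = ph n t v * ph n t (cjO v) := by
    rw [← mul_cjO, map_mul]
  rw [map_intCast, ph_cj] at h
  rw [h, sq]

theorem cop3_iff (v : OO n t) : Cop v 3 ↔ ¬ (3 : ℤ) ∣ Nm v := by
  unfold Cop
  constructor
  · intro h h2
    have h5 := h.isUnit_of_dvd' h2 (by norm_num)
    rw [Int.isUnit_iff] at h5
    omega
  · intro h
    have h1 := (Int.prime_iff_natAbs_prime.2 (by norm_num : (3 : ℤ).natAbs.Prime)).coprime_iff_not_dvd.2 h
    exact_mod_cast h1.symm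

theorem cop3_pp [Ram3 n t] (v : OO n t) : Cop v 3 ↔ v ∉ pp n t := by
  have : Fact (Nat.Prime 3) := ⟨Nat.prime_three⟩
  have h1 : (3 : ℤ) ∣ Nm v ↔ ph n t v = 0 := by
    have h2 := ZMod.intCast_zmod_eq_zero_iff_dvd (Nm v) 3
    rw [Nm_ph] at h2
    push_cast at h2
    rw [← h2, pow_eq_zero_iff two_ne_zero]
  rw [cop3_iff, h1, pp_ker, RingHom.mem_ker]

theorem pp_sq [Ram3 n t] : pp n t * pp n t = sp (3 : OO n t) := by
  obtain ⟨D', hD, hc⟩ := D3 (n := n) (t := t)
  have h3 : (3 : OO n t) ∈ pp n t := Ideal.subset_span (by simp)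
  have hs : sD n t ∈ pp n t := Ideal.subset_span (by simp)
  have hsq : sD n t * sD n t = -(3 * (D' : OO n t)) := by
    rw [sD_sq, hD]
    push_cast
    rfl
  apply le_antisymm
  · rw [Ideal.mul_le]
    intro x hx y hy
    unfold pp at hx hy
    obtain ⟨a, b, rfl⟩ := Ideal.mem_span_pair.1 hx
    obtain ⟨c, d, rfl⟩ := Ideal.mem_span_pair.1 hy
    rw [Ideal.mem_span_singleton]
    refine ⟨3 * a * c + a * d * sD n t + b * c * sD n t - b * d * D', ?_⟩
    linear_combination b * d * hsq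
  · rw [Ideal.span_le, Set.singleton_subset_iff]
    have h9 : (3 : OO n t) * 3 ∈ pp n t * pp n t := Ideal.mul_mem_mul h3 h3
    have h3D : sD n t * sD n t ∈ pp n t * pp n t := Ideal.mul_mem_mul hs hs
    have hco : IsCoprime (3 : ℤ) (D' : ℤ) := by
      have := Nat.isCoprime_iff_coprime.2 hc.symm
      exact_mod_cast this
    obtain ⟨x, y, hxy⟩ := hco
    have e : (3 : OO n t) = (x : OO n t) * (3 * 3) - (y : OO n t) * (sD n t * sD n t) := by
      have h := congrArg (Int.cast : ℤ → OO n t) hxy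
      push_cast at h
      rw [hsq]
      linear_combination -(3 : OO n t) * h
    rw [SetLike.mem_coe, e]
    exact sub_mem (Ideal.mul_mem_left _ _ h9) (Ideal.mul_mem_left _ _ h3D)

/-- Every ideal is a power of `pp` times an ideal prime to `3`. -/
theorem pp_fac [Ram3 n t] (a : Ideal (OO n t)) (ha : a ≠ ⊥) :
    ∃ (j : ℕ) (a' : Ideal (OO n t)), a' ≠ ⊥ ∧ PrI a' 3 ∧ a = pp n t ^ j * a' := by
  have hp : Prime (pp n t) := (Ideal.prime_iff_isPrime pp_ne).2 pp_prime
  have ha0 : a ≠ 0 := ha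
  obtain ⟨j, a', h1, h2⟩ := WfDvdMonoid.max_power_factor ha0 hp.irreducible
  refine ⟨j, a', ?_, ?_, h2⟩
  · rintro rfl
    exact h1 (dvd_zero _)
  · have hmax : (pp n t).IsMaximal := pp_prime.isMaximal pp_ne
    have h3 : IsCoprime a' (pp n t) := by
      rw [Ideal.isCoprime_iff_sup_eq]
      refine hmax.out.2 _ (lt_of_le_of_ne le_sup_right fun h => h1 (Ideal.dvd_iff_le.2 ?_))
      rw [h]
      exact le_sup_left
    rw [Eb.pri_iff]
    have e : Ideal.span {((3 : ℕ) : OO n t)} = pp n t * pp n t := by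
      rw [pp_sq]
      norm_num
    rw [e]
    exact h3.mul_right h3

/-- **`S_O4`.** -/
theorem zO4 : S_O4 := by
  intro n t _
  refine ⟨pp_prime, NI_pp, pp_sq, ?_, sD_sq, cj_sD, ?_, D3, cop3_pp, cop3_iff, fun v hv => ?_, sub_zs, zs_zero,
    fun v => (zs_ph v).2, zs_mul, fun v u h => zs_cong h, zs_cj, fun v => ?_, pp_fac⟩
  · ext v
    rw [(aO3 n t).1, pp_ker, RingHom.mem_ker, RingHom.mem_ker, ph_cj]
  · obtain ⟨D', hD, hc⟩ := D3 (n := n) (t := t)
    have hs : sD n t ∈ pp n t := Ideal.subset_span (by simp)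
    obtain ⟨c, hcc⟩ := Ideal.dvd_iff_le.2 ((Ideal.span_singleton_le_iff_mem (pp n t)).2 hs)
    have hD0 : 0 < Dk n t := by
      have h1 := Dk_cast (n := n) (t := t)
      have h2 := hD3 (n := n) (t := t)
      omega
    have hN : (NI (sp (sD n t)) : ℤ) = Dk n t := by
      rw [(aO2 n t).2.2.2.1, Nm_sD]
    have hN2 : NI (sp (sD n t)) = NI (pp n t) * NI c := by
      have hcc' : sp (sD n t) = pp n t * c := hcc
      rw [hcc', (aO2 n t).2.2.2.2.1]
    have hN3 : NI c = D' := by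
      rw [NI_pp] at hN2
      omega
    refine ⟨c, ?_, ?_, hcc⟩
    · rintro rfl
      have : NI (⊥ : Ideal (OO n t)) = 0 := ((aO2 n t).2.2.2.2.2.1 ⊥).2 rfl
      omega
    · rw [(aO6 n t).2.2.1 3 c (by norm_num), hN3]
      exact hc
  · have h1 : ph n t v ≠ 0 := by
      have := (cop3_pp v).1 hv
      rwa [pp_ker, RingHom.mem_ker] at this
    have h2 : ph n t v ^ 2 = 1 := by
      revert h1
      generalize ph n t v = x
      revert x
      decide
    have h3 := ZMod.intCast_zmod_eq_zero_iff_dvd (Nm v - 1) 3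
    push_cast at h3
    rw [← h3, Nm_ph, h2, sub_self]
  · have := nat_dvd_iff 3 v
    push_cast at this
    exact this

end Pool.Agent.DM.DU
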