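import Pool.Agent.Lib.DU.O.O4

/-!
# Theorem DU: the point `T3 = √-D/3` of order `pp` (`S_L6`) (author helper28)
-/

set_option autoImplicit false

open scoped Pointwise nonZeroDivisors

noncomputable section

namespace Pool.Agent.DM.DU

open Pool.Agent.MuZ Pool.Agent.FW NumberField IsDedekindDomain
open Pool.Agent.DI (io ofC io_inj exists_io io_ofC ofC_io VP MP UP TP ex)
open Pool.Agent.DN

variable {n t : ℕ}

theorem T3_mem [Ram3 n t] (b : Ideal (OO n t)) : T3 n t ∈ Lam (pp n t * b) := by
  rw [lam_prod]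
  intro v hv
  have hs : sD n t ∈ pp n t := Ideal.subset_span (by simp)
  have h1 : v * sD n t ∈ sp (3 : OO n t) := by
    rw [← pp_sq]
    exact Ideal.mul_mem_mul hv hs
  obtain ⟨u, hu⟩ := Ideal.mem_span_singleton.1 h1
  have e : toC v * T3 n t = toC u := by
    unfold T3
    rw [← mul_div_assoc, ← toC_mul, hu, toC_mul, toC_three]
    field_simp
  rw [e]
  have h5 : toC u ∈ Lam (⊤ : Ideal (OO n t)) := lam_top.2 ⟨_, rfl⟩
  exact lam_anti le_top h5

theorem div3 [SqN n t] {b : Ideal (OO n t)} (hb : b ≠ ⊥) (h3 : PrI b 3) (v : OO n t) :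
    toC v / 3 ∈ Lam b ↔ (3 : OO n t) ∣ v := by
  have h := aL6.1 n t b 3 hb (by norm_num) h3 v
  push_cast at h
  exact h

/-- **`S_L6`.** -/
theorem zL6 : S_L6 := by
  intro n t _ b hb h3
  have n1 : T3 n t ∉ Lam b := by
    unfold T3
    rw [div3 hb h3]
    intro h
    have h2 := ((nat_dvd_iff 3 (sD n t)).1 (by push_cast; exact h)).2
    simp only [sD] at h2
    norm_num at h2
  have hz : ∀ v : OO n t, toC v * T3 n t - (zs v : ℂ) * T3 n t ∈ Lam b := by
    intro v
    have h := lam_prod.1 (T3_mem b) _ (sub_zs v)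
    rw [toC_sub, toC_int, sub_mul] at h
    exact h
  refine ⟨T3_mem b, n1, ?_, ?_, hz, ?_⟩
  · intro h
    have e : 2 * T3 n t = toC (2 * sD n t) / 3 := by
      unfold T3
      rw [toC_mul, toC_two]
      ring
    rw [e, div3 hb h3] at h
    have h2 := ((nat_dvd_iff 3 (2 * sD n t)).1 (by push_cast; exact h)).2
    have e2 : (2 : OO n t) = ((2 : ℕ) : OO n t) := by norm_num
    rw [e2, im_mul, re_nat, im_nat] at h2
    simp only [sD] at h2
    norm_num at h2
  · intro T hT
    have hmax : (pp n t).IsMaximal := pp_prime.isMaximal pp_ne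
    have hg : ∀ a' : Ideal (OO n t), pp n t < a' → T3 n t ∉ Lam (a' * b) := by
      intro a' ha'
      rw [hmax.out.2 a' ha', Ideal.top_mul]
      exact n1
    obtain ⟨-, h2⟩ := (aL3 n t (pp n t) b pp_ne hb).2.1 (T3 n t) (T3_mem b) hg
    obtain ⟨v, hv⟩ := h2 T hT
    have h4 : T - (zs v : ℂ) * T3 n t ∈ Lam b := by
      have := lam_add hv (hz v)
      have e : T - toC v * T3 n t + (toC v * T3 n t - (zs v : ℂ) * T3 n t) = T - (zs v : ℂ) * T3 n t := by
        ring
      rwa [e] at this
    rcases (zs_ph v).2 with h | h | h <;> rw [h] at h4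
    · right
      left
      push_cast at h4
      rwa [one_mul] at h4
    · right
      right
      push_cast at h4
      rwa [neg_one_mul, sub_neg_eq_add] at h4
    · left
      push_cast at h4
      rwa [zero_mul, sub_zero] at h4
  · intro j T
    have e : pp n t ^ (2 * j) = sp ((3 : OO n t) ^ j) := by
      rw [pow_mul, sq, pp_sq, Ideal.span_singleton_pow]
    rw [e, lam_sp, toC_pow, toC_three]

end Pool.Agent.DM.DU
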